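import Pool.Agent.H484.AL.Stm

/-!
# MP_6b2836_nt, project AL: from primitive tuples to all tuples
-/

set_option autoImplicit false

namespace Pool.Agent.H484.AL

open Finset
open scoped Classical

theorem PROB_good_mono {d R N : ℕ} {a : Fin d → ℕ} {s s' : ℝ} (h : Good d R N a s) (hs : s' ≤ s) :
    Good d R N a s' := by
  obtain ⟨K, h1, h2⟩ := h
  exact ⟨K, h1, hs.trans h2⟩

theorem PROB_pow_div (e N h : ℕ) (he : 1 ≤ e) (hh : h ∈ N.divisors) :
    (((N / h : ℕ) : ℝ)) ^ (e + 1) ≤ (N : ℝ) ^ (e + 1) * ((h : ℝ) ^ 2)⁻¹ := by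
  have hd : h ∣ N := Nat.dvd_of_mem_divisors hh
  have hh1 : 1 ≤ h := Nat.pos_of_mem_divisors hh
  have hh1' : (1 : ℝ) ≤ h := by exact_mod_cast hh1
  have hh0 : (h : ℝ) ≠ 0 := by positivity
  rw [Nat.cast_div hd hh0, div_pow, div_eq_mul_inv]
  refine mul_le_mul_of_nonneg_left ?_ (by positivity)
  refine inv_anti₀ (by positivity) ?_
  exact pow_le_pow_right₀ hh1' (by omega)

/-- PROB -/
theorem t_PROB (hHOM : S_HOM) (hPSUM : S_PSUM) (hPASY : S_PASY) : S_PROB := by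
  intro e he hP R ε hε
  obtain ⟨H, hH⟩ : ∃ H : ℕ, 4 / ε ≤ (H : ℝ) := exists_nat_ge _
  have hH2 : 2 / ((H : ℝ) + 1) ≤ ε / 2 := by
    have h0 : (0 : ℝ) < (H : ℝ) + 1 := by positivity
    rw [div_le_iff₀ h0]
    have h1 : 4 ≤ (H : ℝ) * ε := by
      rwa [div_le_iff₀ hε] at hH
    nlinarith
  obtain ⟨c', N0', hc', hN0'⟩ := hP R (ε / 4) (by positivity)
  obtain ⟨N1, hN1⟩ := hPASY e H
  refine ⟨c' / 2, max (max N1 (H * N0')) 1, by positivity, ?_⟩
  intro N hN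
  have hNa : N1 ≤ N := le_trans (le_trans (le_max_left _ _) (le_max_left _ _)) hN
  have hNb : H * N0' ≤ N := le_trans (le_trans (le_max_right _ _) (le_max_left _ _)) hN
  have hNc : 1 ≤ N := le_trans (le_max_right _ _) hN
  obtain ⟨s, hs⟩ : ∃ s : ℝ, s = c' / 2 * (Real.log (N : ℝ)) ^ e *
      Real.log (Real.log (N : ℝ)) := ⟨_, rfl⟩
  rw [← hs]
  obtain ⟨Q, hQ⟩ : ∃ Q : (Fin (e + 1) → ℕ) → Prop, Q = fun a => ¬ Good (e + 1) R N a s :=
    ⟨_, rfl⟩
  have hsum := hPSUM (e + 1) N Q hNc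
  obtain ⟨A, hA⟩ : ∃ A : ℕ → ℕ, A = fun h => (univ.filter (fun a' : Fin (e + 1) → Fin (N / h) =>
      prim (e + 1) (N / h) (fun i => (a' i : ℕ)) ∧ Q (fun i => h * (a' i : ℕ)))).card := ⟨_, rfl⟩
  have hsum' : (((univ.filter (fun a : Fin (e + 1) → Fin N =>
      ¬ Good (e + 1) R N (fun i => (a i : ℕ)) s)).card : ℕ) : ℝ) ≤
      ∑ h ∈ N.divisors, (A h : ℝ) := by
    have h1 : (univ.filter (fun a : Fin (e + 1) → Fin N =>
        ¬ Good (e + 1) R N (fun i => (a i : ℕ)) s)).card ≤ ∑ h ∈ N.divisors, A h := by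
      rw [hA]
      refine le_trans (Finset.card_le_card ?_) hsum
      intro a ha
      rw [Finset.mem_filter] at ha ⊢
      rw [hQ]
      exact ha
    exact_mod_cast h1
  -- all `h`
  have hAll : ∀ h ∈ N.divisors, (A h : ℝ) ≤ (N : ℝ) ^ (e + 1) * ((h : ℝ) ^ 2)⁻¹ := by
    intro h hh
    refine le_trans ?_ (PROB_pow_div e N h he hh)
    have h1 : A h ≤ (N / h) ^ (e + 1) := by
      rw [hA]
      refine le_trans (Finset.card_filter_le _ _) ?_
      rw [Finset.card_univ, Fintype.card_fun, Fintype.card_fin, Fintype.card_fin]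
    exact_mod_cast h1
  -- small `h`
  have hSmall : ∀ h ∈ N.divisors, h ≤ H →
      (A h : ℝ) ≤ ε / 4 * ((N : ℝ) ^ (e + 1) * ((h : ℝ) ^ 2)⁻¹) := by
    intro h hh hhH
    have hd : h ∣ N := Nat.dvd_of_mem_divisors hh
    have hh1 : 1 ≤ h := Nat.pos_of_mem_divisors hh
    have hhN : h * (N / h) = N := Nat.mul_div_cancel' hd
    have hN' : N0' ≤ N / h := by
      rw [Nat.le_div_iff_mul_le hh1]
      calc N0' * h ≤ N0' * H := Nat.mul_le_mul_left _ hhH
        _ = H * N0' := Nat.mul_comm _ _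
        _ ≤ N := hNb
    obtain ⟨p1, p2⟩ := hN1 N hNa h hh1 hhH hd
    have h2 := hN0' (N / h) hN'
    refine le_trans ?_ (le_trans h2 (mul_le_mul_of_nonneg_left (PROB_pow_div e N h he hh)
      (by positivity)))
    have h3 : A h ≤ (univ.filter (fun a : Fin (e + 1) → Fin (N / h) =>
        prim (e + 1) (N / h) (fun i => (a i : ℕ)) ∧
      ¬ Good (e + 1) R (N / h) (fun i => (a i : ℕ))
        (c' * (Real.log ((N / h : ℕ) : ℝ)) ^ e *
          Real.log (Real.log ((N / h : ℕ) : ℝ))))).card := by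
      rw [hA]
      refine Finset.card_le_card ?_
      intro a ha
      rw [Finset.mem_filter] at ha ⊢
      refine ⟨ha.1, ha.2.1, ?_⟩
      intro hg
      have hq := ha.2.2
      rw [hQ] at hq
      apply hq
      have h4 := hHOM (e + 1) R (N / h) h _ _ hh1 hg
      rw [hhN] at h4
      refine PROB_good_mono h4 ?_
      obtain ⟨T, hT⟩ : ∃ T : ℝ, T = (Real.log (N : ℝ)) ^ e * Real.log (Real.log (N : ℝ)) :=
        ⟨_, rfl⟩
      obtain ⟨T', hT'⟩ : ∃ T' : ℝ, T' = (Real.log ((N / h : ℕ) : ℝ)) ^ e *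
        Real.log (Real.log ((N / h : ℕ) : ℝ)) := ⟨_, rfl⟩
      rw [← hT] at p1 p2
      rw [← hT'] at p2
      have e1 : s = c' * (1 / 2 * T) := by rw [hs, hT]; ring
      have e2 : c' * (Real.log ((N / h : ℕ) : ℝ)) ^ e *
          Real.log (Real.log ((N / h : ℕ) : ℝ)) = c' * T' := by rw [hT']; ring
      rw [e1, e2]
      have h5 : c' * (1 / 2 * T) ≤ c' * T' := mul_le_mul_of_nonneg_left p2 hc'.le
      have h6 : 0 ≤ c' * T' := by
        refine mul_nonneg hc'.le (le_trans ?_ p2)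
        positivity
      have h7 : (1 : ℝ) ≤ h := by exact_mod_cast hh1
      calc c' * (1 / 2 * T) ≤ c' * T' := h5
        _ = 1 * (c' * T') := (one_mul _).symm
        _ ≤ (h : ℝ) * (c' * T') := mul_le_mul_of_nonneg_right h7 h6
    exact_mod_cast h3
  -- summation
  have hN0 : (0 : ℝ) ≤ (N : ℝ) ^ (e + 1) := by positivity
  have hsplit : ∑ h ∈ N.divisors, (A h : ℝ) ≤
      ε / 4 * ((N : ℝ) ^ (e + 1) * ∑ h ∈ Ioo 0 (N + 1), ((h : ℝ) ^ 2)⁻¹) +
        (N : ℝ) ^ (e + 1) * ∑ h ∈ Ioo H (N + 1), ((h : ℝ) ^ 2)⁻¹ := by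
    rw [← Finset.sum_filter_add_sum_filter_not N.divisors (fun h => h ≤ H)]
    refine add_le_add ?_ ?_
    · refine le_trans (Finset.sum_le_sum (g := fun h : ℕ => ε / 4 *
        ((N : ℝ) ^ (e + 1) * ((h : ℝ) ^ 2)⁻¹)) fun h hh => ?_) ?_
      · rw [Finset.mem_filter] at hh
        exact hSmall h hh.1 hh.2
      · rw [Finset.mul_sum, Finset.mul_sum]
        refine Finset.sum_le_sum_of_subset_of_nonneg ?_ (fun _ _ _ => by positivity)
        intro h hh
        rw [Finset.mem_filter] at hh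
        rw [Finset.mem_Ioo]
        exact ⟨Nat.pos_of_mem_divisors hh.1, Nat.lt_succ_of_le (Nat.divisor_le hh.1)⟩
    · refine le_trans (Finset.sum_le_sum (g := fun h : ℕ =>
        ((N : ℝ) ^ (e + 1) * ((h : ℝ) ^ 2)⁻¹)) fun h hh => ?_) ?_
      · rw [Finset.mem_filter] at hh
        exact hAll h hh.1
      · rw [Finset.mul_sum]
        refine Finset.sum_le_sum_of_subset_of_nonneg ?_ (fun _ _ _ => by positivity)
        intro h hh
        rw [Finset.mem_filter] at hh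
        rw [Finset.mem_Ioo]
        exact ⟨not_le.1 hh.2, Nat.lt_succ_of_le (Nat.divisor_le hh.1)⟩
  have hs1 : ∑ h ∈ Ioo 0 (N + 1), ((h : ℝ) ^ 2)⁻¹ ≤ 2 := by
    have h1 := sum_Ioo_inv_sq_le (α := ℝ) 0 (N + 1)
    simp only [Nat.cast_zero, zero_add, div_one] at h1
    exact h1
  have hs2 : ∑ h ∈ Ioo H (N + 1), ((h : ℝ) ^ 2)⁻¹ ≤ ε / 2 :=
    (sum_Ioo_inv_sq_le (α := ℝ) H (N + 1)).trans hH2
  calc (((univ.filter (fun a : Fin (e + 1) → Fin N =>
      ¬ Good (e + 1) R N (fun i => (a i : ℕ)) s)).card : ℕ) : ℝ)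
      ≤ ∑ h ∈ N.divisors, (A h : ℝ) := hsum'
    _ ≤ _ := hsplit
    _ ≤ ε / 4 * ((N : ℝ) ^ (e + 1) * 2) + (N : ℝ) ^ (e + 1) * (ε / 2) := by
      refine add_le_add ?_ (mul_le_mul_of_nonneg_left hs2 hN0)
      exact mul_le_mul_of_nonneg_left (mul_le_mul_of_nonneg_left hs1 hN0) (by positivity)
    _ = ε * (N : ℝ) ^ (e + 1) := by ring

end Pool.Agent.H484.AL
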